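import Mathlib

open MeasureTheory Set
open scoped Pointwise

namespace Pool.Agent.Results.MP_49a3fa_co.RightTriangle

/-- The standard closed triangle in the plane. -/
def stdTri : Set (EuclideanSpace ℝ (Fin 2)) := {x | 0 ≤ x 0 ∧ 0 ≤ x 1 ∧ x 0 + x 1 ≤ 1}

lemma volume_stdTri : volume stdTri = ENNReal.ofReal (1 / 2) := by
  let S : Set (ℝ × ℝ) := {p | 0 ≤ p.1 ∧ 0 ≤ p.2 ∧ p.1 + p.2 ≤ 1}
  have hS : MeasurableSet S := by
    apply IsClosed.measurableSet
    refine IsClosed.and ?_ (IsClosed.and ?_ ?_)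
    · exact isClosed_le continuous_const continuous_fst
    · exact isClosed_le continuous_const continuous_snd
    · exact isClosed_le (continuous_fst.add continuous_snd) continuous_const
  have h1 : stdTri = (fun x : EuclideanSpace ℝ (Fin 2) => MeasurableEquiv.finTwoArrow (WithLp.ofLp x)) ⁻¹' S := by
    ext x
    simp [stdTri, S, MeasurableEquiv.finTwoArrow]
  have hmp : MeasurePreserving (fun x : EuclideanSpace ℝ (Fin 2) => MeasurableEquiv.finTwoArrow (WithLp.ofLp x))
      volume (volume : Measure (ℝ × ℝ)) :=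
    (MeasureTheory.volume_preserving_finTwoArrow ℝ).comp (PiLp.volume_preserving_ofLp (Fin 2))
  rw [h1, hmp.measure_preimage hS.nullMeasurableSet]
  rw [Measure.volume_eq_prod, Measure.prod_apply hS]
  have h2 : ∀ x : ℝ, volume (Prod.mk x ⁻¹' S) = (Icc (0:ℝ) 1).indicator (fun x => ENNReal.ofReal (1 - x)) x := by
    intro x
    by_cases hx : x ∈ Icc (0:ℝ) 1
    · rw [indicator_of_mem hx]
      have : Prod.mk x ⁻¹' S = Icc 0 (1 - x) := by
        ext y
        simp only [S, mem_preimage, mem_ofPred_eq, mem_Icc]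
        constructor
        · rintro ⟨_, h, h'⟩; exact ⟨h, by linarith⟩
        · rintro ⟨h, h'⟩; exact ⟨hx.1, h, by linarith⟩
      rw [this, Real.volume_Icc]; simp
    · rw [indicator_of_notMem hx]
      have : Prod.mk x ⁻¹' S = ∅ := by
        ext y
        simp only [S, mem_preimage, mem_ofPred_eq, mem_empty_iff_false, iff_false]
        rintro ⟨h0, h, h'⟩
        exact hx ⟨h0, by linarith⟩
      rw [this]; simp
  simp_rw [h2]
  rw [lintegral_indicator measurableSet_Icc]
  rw [← ofReal_integral_eq_lintegral_ofReal]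
  · congr 1
    rw [integral_Icc_eq_integral_Ioc, ← intervalIntegral.integral_of_le (by norm_num)]
    rw [intervalIntegral.integral_sub (by simp) (by simp)]
    simp
    norm_num
  · exact (continuous_const.sub continuous_id).integrableOn_Icc
  · filter_upwards [ae_restrict_mem measurableSet_Icc] with x hx
    simp only [Pi.zero_apply]
    linarith [hx.2]

/-- Twice the signed area of the triangle `A B C`. -/
def cr (A B C : EuclideanSpace ℝ (Fin 2)) : ℝ :=
  (B 0 - A 0) * (C 1 - A 1) - (B 1 - A 1) * (C 0 - A 0)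

lemma mem_hull3 {A B C x : EuclideanSpace ℝ (Fin 2)} :
    x ∈ convexHull ℝ {A, B, C} ↔ ∃ a b : ℝ, 0 ≤ a ∧ 0 ≤ b ∧ a + b ≤ 1 ∧ x = A + a • (B - A) + b • (C - A) := by
  rw [convexHull_insert (by simp), convexHull_pair, mem_convexJoin]
  constructor
  · rintro ⟨a', ha', y, hy, hx⟩
    rw [mem_singleton_iff] at ha'
    subst ha'
    rw [segment_eq_image] at hy hx
    obtain ⟨t, ht, rfl⟩ := hy
    obtain ⟨s, hs, rfl⟩ := hx
    refine ⟨s * (1 - t), s * t, mul_nonneg hs.1 (by linarith [ht.2]), mul_nonneg hs.1 ht.1, ?_, ?_⟩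
    · have : s * (1 - t) + s * t = s := by ring
      rw [this]; exact hs.2
    · module
  · rintro ⟨a, b, ha, hb, hab, rfl⟩
    refine ⟨A, by simp, ?_⟩
    rcases eq_or_lt_of_le (add_nonneg ha hb) with h | h
    · have ha0 : a = 0 := by linarith
      have hb0 : b = 0 := by linarith
      refine ⟨B, left_mem_segment ℝ B C, ?_⟩
      subst ha0; subst hb0
      simp only [zero_smul, add_zero]
      exact left_mem_segment ℝ _ _
    · refine ⟨B + (b / (a + b)) • (C - B), ?_, ?_⟩
      · rw [segment_eq_image]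
        refine ⟨b / (a + b), ⟨by positivity, ?_⟩, by module⟩
        rw [div_le_one h]; linarith
      · rw [segment_eq_image]
        refine ⟨a + b, ⟨h.le, hab⟩, ?_⟩
        have h' : (a + b) * (b / (a + b)) = b := by field_simp
        calc (1 - (a + b)) • A + (a + b) • (B + (b / (a + b)) • (C - B))
            = (1 - (a + b)) • A + (a + b) • B + ((a + b) * (b / (a + b))) • (C - B) := by module
          _ = A + a • (B - A) + b • (C - A) := by rw [h']; module

lemma volume_tri (A B C : EuclideanSpace ℝ (Fin 2)) :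
    volume (convexHull ℝ {A, B, C}) = ENNReal.ofReal (|cr A B C| / 2) := by
  let M : Matrix (Fin 2) (Fin 2) ℝ := !![B 0 - A 0, C 0 - A 0; B 1 - A 1, C 1 - A 1]
  have hM : convexHull ℝ {A, B, C} = (fun y => A + y) '' ((Matrix.toLpLin 2 2 M) '' stdTri) := by
    ext x
    rw [mem_hull3]
    constructor
    · rintro ⟨a, b, ha, hb, hab, rfl⟩
      refine ⟨a • (B - A) + b • (C - A), ⟨!₂[a, b], ⟨by simpa using ha, by simpa using hb, by simpa using hab⟩, ?_⟩, ?_⟩
      · ext i
        fin_cases i
        · simp [M]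
        · simp [M]
      · simp [add_assoc]
    · rintro ⟨y, ⟨z, ⟨hz0, hz1, hz2⟩, rfl⟩, rfl⟩
      refine ⟨z 0, z 1, hz0, hz1, hz2, ?_⟩
      ext i
      fin_cases i
      · simp [M, Matrix.toLpLin_apply, Matrix.vecHead, Matrix.vecTail]; ring
      · simp [M, Matrix.toLpLin_apply, Matrix.vecHead, Matrix.vecTail]; ring
  rw [hM, image_add_left, measure_preimage_add, Measure.addHaar_image_linearMap, volume_stdTri]
  have hdet : LinearMap.det (Matrix.toLpLin 2 2 M) = cr A B C := by
    rw [Matrix.toLpLin_eq_toLin, LinearMap.det_toLin, Matrix.det_fin_two]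
    simp [M, cr]; ring
  rw [hdet, ← ENNReal.ofReal_mul (abs_nonneg _)]
  congr 1
  ring

/-- The point `r • (x, y)` lies in the right triangle with corner `(v0, v1)` and legs `(c, s)` and
`μ • (-s, c)`. -/
def InT (r v0 v1 c s μ x y : ℝ) : Prop :=
  ∃ a b : ℝ, 0 ≤ a ∧ 0 ≤ b ∧ a + b ≤ 1 ∧ r * x = v0 + a * c - b * μ * s ∧ r * y = v1 + a * s + b * μ * c

lemma seg {r v0 v1 c s μ : ℝ} (x y x1 y1 x2 y2 l : ℝ) (h0 : 0 ≤ l) (h1 : l ≤ 1)
    (hx : x = x1 + l * (x2 - x1)) (hy : y = y1 + l * (y2 - y1))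
    (H1 : InT r v0 v1 c s μ x1 y1) (H2 : InT r v0 v1 c s μ x2 y2) : InT r v0 v1 c s μ x y := by
  obtain ⟨a1, b1, ha1, hb1, hab1, e1, e2⟩ := H1
  obtain ⟨a2, b2, ha2, hb2, hab2, f1, f2⟩ := H2
  have h1' : 0 ≤ 1 - l := by linarith
  refine ⟨(1 - l) * a1 + l * a2, (1 - l) * b1 + l * b2, by positivity, by positivity, ?_, ?_, ?_⟩
  · have g1 := mul_le_mul_of_nonneg_left hab1 h1'
    have g2 := mul_le_mul_of_nonneg_left hab2 h0
    linarith
  · rw [hx]; linear_combination (1 - l) * e1 + l * f1
  · rw [hy]; linear_combination (1 - l) * e2 + l * f2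

lemma sector {r v0 v1 c s μ : ℝ} (p q p' q' zx zy jx jy kx ky : ℝ)
    (hD : 0 < p * q' - q * p')
    (hA : (154833 / 200) * (p ^ 2 + q ^ 2) <
      ((zx - jx) * p + (zy - jy) * q) * (-(zx - kx) * q + (zy - ky) * p))
    (hC : (154833 / 200) * (p' ^ 2 + q' ^ 2) <
      ((zx - jx) * p' + (zy - jy) * q') * (-(zx - kx) * q' + (zy - ky) * p'))
    (hB : 2 * (154833 / 200) * (p * p' + q * q') ≤
      ((zx - jx) * p + (zy - jy) * q) * (-(zx - kx) * q' + (zy - ky) * p') +
      ((zx - jx) * p' + (zy - jy) * q') * (-(zx - kx) * q + (zy - ky) * p))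
    (hX : 0 ≤ (zx - jx) * p + (zy - jy) * q) (hX' : 0 ≤ (zx - jx) * p' + (zy - jy) * q')
    (hr : 0 < r) (h1 : 0 ≤ p * s - q * c) (h2 : 0 ≤ c * q' - s * p') (h0 : 0 < c ^ 2 + s ^ 2)
    (HZ : InT r v0 v1 c s μ zx zy) (HJ : InT r v0 v1 c s μ jx jy) (HK : InT r v0 v1 c s μ kx ky)
    (hμ : 0 ≤ μ) :
    4 * (154833 / 200) * r ^ 2 < μ * (c ^ 2 + s ^ 2) := by
  set A : ℝ := 154833 / 200 with hAdef
  have hA0 : 0 < A := by rw [hAdef]; norm_num
  clear_value A
  -- positivity of the quadratic form on the cone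
  set α := c * q' - s * p' with hα
  set β := p * s - q * c with hβ
  set D := p * q' - q * p' with hDd
  have ec : D * c = α * p + β * p' := by rw [hα, hβ, hDd]; ring
  have es : D * s = α * q + β * q' := by rw [hα, hβ, hDd]; ring
  set X := (zx - jx) * c + (zy - jy) * s with hXd
  set Y := -(zx - kx) * s + (zy - ky) * c with hYd
  have eX : D * X = α * ((zx - jx) * p + (zy - jy) * q) + β * ((zx - jx) * p' + (zy - jy) * q') := by
    rw [hXd]; linear_combination (zx - jx) * ec + (zy - jy) * es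
  have eY : D * Y = α * (-(zx - kx) * q + (zy - ky) * p) + β * (-(zx - kx) * q' + (zy - ky) * p') := by
    rw [hYd]; linear_combination (zy - ky) * ec - (zx - kx) * es
  have en : D ^ 2 * (c ^ 2 + s ^ 2) = α ^ 2 * (p ^ 2 + q ^ 2) + 2 * α * β * (p * p' + q * q') + β ^ 2 * (p' ^ 2 + q' ^ 2) := by
    have : D ^ 2 * (c ^ 2 + s ^ 2) = (D * c) ^ 2 + (D * s) ^ 2 := by ring
    rw [this, ec, es]; ring
  have hX0 : 0 ≤ X := by
    have : 0 ≤ D * X := by rw [eX]; positivity
    exact nonneg_of_mul_nonneg_right this hD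
  have key : A * (c ^ 2 + s ^ 2) < X * Y := by
    have h3 : 0 < D ^ 2 * (X * Y - A * (c ^ 2 + s ^ 2)) := by
      have e : D ^ 2 * (X * Y - A * (c ^ 2 + s ^ 2)) =
        α ^ 2 * (((zx - jx) * p + (zy - jy) * q) * (-(zx - kx) * q + (zy - ky) * p) - A * (p ^ 2 + q ^ 2)) +
        α * β * (((zx - jx) * p + (zy - jy) * q) * (-(zx - kx) * q' + (zy - ky) * p') +
      ((zx - jx) * p' + (zy - jy) * q') * (-(zx - kx) * q + (zy - ky) * p) - 2 * A * (p * p' + q * q')) +
        β ^ 2 * (((zx - jx) * p' + (zy - jy) * q') * (-(zx - kx) * q' + (zy - ky) * p') - A * (p' ^ 2 + q' ^ 2)) := by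
        have : D ^ 2 * (X * Y - A * (c ^ 2 + s ^ 2)) = (D * X) * (D * Y) - A * (D ^ 2 * (c ^ 2 + s ^ 2)) := by ring
        rw [this, eX, eY, en]; ring
      rw [e]
      have hαβ : 0 ≤ α * β := mul_nonneg h2 h1
      have hB' := mul_nonneg hαβ (sub_nonneg.mpr hB)
      rcases eq_or_lt_of_le h2 with hz | hz
      · have hβ0 : 0 < β := by
          rcases eq_or_lt_of_le h1 with hz' | hz'
          · exfalso
            rw [← hz, ← hz'] at en
            have : 0 < D ^ 2 * (c ^ 2 + s ^ 2) := by positivity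
            rw [en] at this
            norm_num at this
          · exact hz'
        have h4 := mul_pos (pow_pos hβ0 2) (sub_pos.mpr hC)
        rw [← hz]
        simpa using h4
      · have h4 := mul_pos (pow_pos hz 2) (sub_pos.mpr hA)
        have h5 := mul_nonneg (sq_nonneg β) (sub_pos.mpr hC).le
        exact add_pos_of_pos_of_nonneg (add_pos_of_pos_of_nonneg h4 hB') h5
    have h4 : 0 < X * Y - A * (c ^ 2 + s ^ 2) := by
      by_contra hneg
      push Not at hneg
      have := mul_nonpos_of_nonneg_of_nonpos (sq_nonneg D) hneg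
      linarith
    linarith
  clear eX eY en ec es hA hC hB hX hX' h1 h2
  obtain ⟨az, bz, haz, hbz, habz, ez1, ez2⟩ := HZ
  obtain ⟨aj, bj, haj, hbj, habj, ej1, ej2⟩ := HJ
  obtain ⟨ak, bk, hak, hbk, habk, ek1, ek2⟩ := HK
  set n := c ^ 2 + s ^ 2 with hn
  have hrX : r * X = (az - aj) * n := by
    rw [hXd, hn]; linear_combination c * ez1 + s * ez2 - c * ej1 - s * ej2
  have hrY : r * Y = (bz - bk) * μ * n := by
    rw [hYd, hn]; linear_combination -s * ez1 + c * ez2 + s * ek1 - c * ek2
  have hXY : 0 < X * Y := lt_trans (mul_pos hA0 h0) key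
  have hX1 : 0 < X := by
    rcases eq_or_lt_of_le hX0 with h | h
    · rw [← h] at hXY; simp at hXY
    · exact h
  have hY1 : 0 < Y := (pos_iff_pos_of_mul_pos hXY).mp hX1
  have hu : r * X ≤ az * n := by
    rw [hrX]; exact mul_le_mul_of_nonneg_right (by linarith) h0.le
  have hμn : 0 ≤ μ * n := mul_nonneg hμ h0.le
  have hv : r * Y ≤ bz * (μ * n) := by
    rw [hrY, mul_assoc]
    exact mul_le_mul_of_nonneg_right (by linarith) hμn
  have h6 : (r * X) * (r * Y) ≤ (az * n) * (bz * (μ * n)) :=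
    mul_le_mul hu hv (by positivity) (by positivity)
  have h7 : 4 * (az * bz) ≤ 1 := by
    have h71 : (az + bz) ^ 2 ≤ 1 := pow_le_one₀ (by linarith) habz
    have h72 : 4 * (az * bz) = (az + bz) ^ 2 - (az - bz) ^ 2 := by ring
    rw [h72]
    linarith [sq_nonneg (az - bz)]
  have h9 : 0 ≤ μ * n * n := mul_nonneg hμn h0.le
  have h8 : 4 * ((r * X) * (r * Y)) ≤ μ * n * n := by
    have e8 : (az * n) * (bz * (μ * n)) = (az * bz) * (μ * n * n) := by ring
    rw [e8] at h6
    calc 4 * ((r * X) * (r * Y)) ≤ 4 * ((az * bz) * (μ * n * n)) := by linarith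
      _ = (4 * (az * bz)) * (μ * n * n) := by ring
      _ ≤ 1 * (μ * n * n) := mul_le_mul_of_nonneg_right h7 h9
      _ = μ * n * n := one_mul _
  have h12 : A * n * r ^ 2 < (X * Y) * r ^ 2 :=
    mul_lt_mul_of_pos_right key (by positivity)
  have e10 : (X * Y) * r ^ 2 = (r * X) * (r * Y) := by ring
  rw [e10] at h12
  have h11 : (4 * A * r ^ 2) * n < (μ * n) * n := by
    calc (4 * A * r ^ 2) * n = 4 * (A * n * r ^ 2) := by ring
      _ < 4 * ((r * X) * (r * Y)) := by linarith
      _ ≤ μ * n * n := h8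
  exact lt_of_mul_lt_mul_right h11 h0.le

lemma sectors {r v0 v1 c s μ : ℝ} (hr : 0 < r) (h0 : 0 < c ^ 2 + s ^ 2) (hμ : 0 ≤ μ)
    (H0 : InT r v0 v1 c s μ 0 2) (H1 : InT r v0 v1 c s μ 31 0) (H2 : InT r v0 v1 c s μ 34 23)
    (H3 : InT r v0 v1 c s μ 16 25) (H4 : InT r v0 v1 c s μ 0 25) :
    4 * (154833 / 200) * r ^ 2 < μ * (c ^ 2 + s ^ 2) := by
  rcases le_total 0 s with hs | hs
  · rcases le_total (15 * s - 7 * c) 0 with g0 | g0
    · exact sector 1 0 15 7 34 23 0 2 31 0 (by norm_num) (by norm_num) (by norm_num) (by norm_num) (by norm_num) (by norm_num) hr (by linarith) (by linarith) h0 (seg 34 23 34 23 16 25 0 (by norm_num) (by norm_num) (by norm_num) (by norm_num) H2 H3) H0 H1 hμ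
    rcases le_total (5 * s - 3 * c) 0 with g1 | g1
    · exact sector 15 7 5 3 25 24 0 2 31 0 (by norm_num) (by norm_num) (by norm_num) (by norm_num) (by norm_num) (by norm_num) hr (by linarith) (by linarith) h0 (seg 25 24 34 23 16 25 (1/2) (by norm_num) (by norm_num) (by norm_num) (by norm_num) H2 H3) H0 H1 hμ
    rcases le_total (14 * s - 9 * c) 0 with g2 | g2
    · exact sector 5 3 14 9 (91/4) (97/4) 0 2 31 0 (by norm_num) (by norm_num) (by norm_num) (by norm_num) (by norm_num) (by norm_num) hr (by linarith) (by linarith) h0 (seg (91/4) (97/4) 34 23 16 25 (5/8) (by norm_num) (by norm_num) (by norm_num) (by norm_num) H2 H3) H0 H1 hμ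
    rcases le_total (10 * s - 7 * c) 0 with g3 | g3
    · exact sector 14 9 10 7 (173/8) (195/8) 0 2 31 0 (by norm_num) (by norm_num) (by norm_num) (by norm_num) (by norm_num) (by norm_num) hr (by linarith) (by linarith) h0 (seg (173/8) (195/8) 34 23 16 25 (11/16) (by norm_num) (by norm_num) (by norm_num) (by norm_num) H2 H3) H0 H1 hμ
    rcases le_total (11 * s - 9 * c) 0 with g4 | g4
    · exact sector 10 7 11 9 (155/8) (197/8) 0 2 31 0 (by norm_num) (by norm_num) (by norm_num) (by norm_num) (by norm_num) (by norm_num) hr (by linarith) (by linarith) h0 (seg (155/8) (197/8) 34 23 16 25 (13/16) (by norm_num) (by norm_num) (by norm_num) (by norm_num) H2 H3) H0 H1 hμ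
    rcases le_total (9 * s - 10 * c) 0 with g5 | g5
    · exact sector 11 9 9 10 16 25 0 2 31 0 (by norm_num) (by norm_num) (by norm_num) (by norm_num) (by norm_num) (by norm_num) hr (by linarith) (by linarith) h0 (seg 16 25 16 25 0 25 0 (by norm_num) (by norm_num) (by norm_num) (by norm_num) H3 H4) H0 H1 hμ
    rcases le_total (7 * s - 9 * c) 0 with g6 | g6
    · exact sector 9 10 7 9 12 25 0 2 31 0 (by norm_num) (by norm_num) (by norm_num) (by norm_num) (by norm_num) (by norm_num) hr (by linarith) (by linarith) h0 (seg 12 25 16 25 0 25 (1/4) (by norm_num) (by norm_num) (by norm_num) (by norm_num) H3 H4) H0 H1 hμ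
    rcases le_total (5 * s - 8 * c) 0 with g7 | g7
    · exact sector 7 9 5 8 9 25 0 2 31 0 (by norm_num) (by norm_num) (by norm_num) (by norm_num) (by norm_num) (by norm_num) hr (by linarith) (by linarith) h0 (seg 9 25 16 25 0 25 (7/16) (by norm_num) (by norm_num) (by norm_num) (by norm_num) H3 H4) H0 H1 hμ
    rcases le_total (2 * s - 11 * c) 0 with g8 | g8
    · exact sector 5 8 2 11 1 25 0 2 31 0 (by norm_num) (by norm_num) (by norm_num) (by norm_num) (by norm_num) (by norm_num) hr (by linarith) (by linarith) h0 (seg 1 25 16 25 0 25 (15/16) (by norm_num) (by norm_num) (by norm_num) (by norm_num) H3 H4) H0 H1 hμ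
    rcases le_total (2 * s - 15 * c) 0 with g9 | g9
    · exact sector 2 11 2 15 0 25 0 2 31 0 (by norm_num) (by norm_num) (by norm_num) (by norm_num) (by norm_num) (by norm_num) hr (by linarith) (by linarith) h0 (seg 0 25 0 25 0 2 0 (by norm_num) (by norm_num) (by norm_num) (by norm_num) H4 H0) H0 H1 hμ
    rcases le_total ((-1) * s - 14 * c) 0 with g10 | g10
    · exact sector 2 15 (-1) 14 0 25 0 2 34 23 (by norm_num) (by norm_num) (by norm_num) (by norm_num) (by norm_num) (by norm_num) hr (by linarith) (by linarith) h0 (seg 0 25 0 25 0 2 0 (by norm_num) (by norm_num) (by norm_num) (by norm_num) H4 H0) H0 H2 hμ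
    rcases le_total ((-3) * s - 2 * c) 0 with g11 | g11
    · exact sector (-1) 14 (-3) 2 0 (331/16) 31 0 34 23 (by norm_num) (by norm_num) (by norm_num) (by norm_num) (by norm_num) (by norm_num) hr (by linarith) (by linarith) h0 (seg 0 (331/16) 0 25 0 2 (3/16) (by norm_num) (by norm_num) (by norm_num) (by norm_num) H4 H0) H1 H2 hμ
    rcases le_total ((-8) * s - 1 * c) 0 with g12 | g12
    · exact sector (-3) 2 (-8) 1 0 2 31 0 34 23 (by norm_num) (by norm_num) (by norm_num) (by norm_num) (by norm_num) (by norm_num) hr (by linarith) (by linarith) h0 (seg 0 2 0 2 31 0 0 (by norm_num) (by norm_num) (by norm_num) (by norm_num) H0 H1) H1 H2 hμ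
    rcases le_total ((-9) * s - 1 * c) 0 with g13 | g13
    · exact sector (-8) 1 (-9) 1 0 2 34 23 34 23 (by norm_num) (by norm_num) (by norm_num) (by norm_num) (by norm_num) (by norm_num) hr (by linarith) (by linarith) h0 (seg 0 2 0 2 31 0 0 (by norm_num) (by norm_num) (by norm_num) (by norm_num) H0 H1) H2 H2 hμ
    exact sector (-9) 1 (-1) 0 0 2 34 23 16 25 (by norm_num) (by norm_num) (by norm_num) (by norm_num) (by norm_num) (by norm_num) hr (by linarith) (by linarith) h0 (seg 0 2 0 2 31 0 0 (by norm_num) (by norm_num) (by norm_num) (by norm_num) H0 H1) H2 H3 hμ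
  · rcases le_total ((-11) * s - (-7) * c) 0 with g0 | g0
    · exact sector (-1) 0 (-11) (-7) 0 2 34 23 0 25 (by norm_num) (by norm_num) (by norm_num) (by norm_num) (by norm_num) (by norm_num) hr (by linarith) (by linarith) h0 (seg 0 2 0 2 31 0 0 (by norm_num) (by norm_num) (by norm_num) (by norm_num) H0 H1) H2 H4 hμ
    rcases le_total ((-7) * s - (-9) * c) 0 with g1 | g1
    · exact sector (-11) (-7) (-7) (-9) (31/2) 1 34 23 0 25 (by norm_num) (by norm_num) (by norm_num) (by norm_num) (by norm_num) (by norm_num) hr (by linarith) (by linarith) h0 (seg (31/2) 1 0 2 31 0 (1/2) (by norm_num) (by norm_num) (by norm_num) (by norm_num) H0 H1) H2 H4 hμ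
    rcases le_total ((-1) * s - (-9) * c) 0 with g2 | g2
    · exact sector (-7) (-9) (-1) (-9) 31 0 34 23 0 25 (by norm_num) (by norm_num) (by norm_num) (by norm_num) (by norm_num) (by norm_num) hr (by linarith) (by linarith) h0 (seg 31 0 31 0 34 23 0 (by norm_num) (by norm_num) (by norm_num) (by norm_num) H1 H2) H2 H4 hμ
    rcases le_total (0 * s - (-1) * c) 0 with g3 | g3
    · exact sector (-1) (-9) 0 (-1) 31 0 16 25 0 25 (by norm_num) (by norm_num) (by norm_num) (by norm_num) (by norm_num) (by norm_num) hr (by linarith) (by linarith) h0 (seg 31 0 31 0 34 23 0 (by norm_num) (by norm_num) (by norm_num) (by norm_num) H1 H2) H3 H4 hμ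
    rcases le_total (13 * s - (-12) * c) 0 with g4 | g4
    · exact sector 0 (-1) 13 (-12) 31 0 0 25 0 2 (by norm_num) (by norm_num) (by norm_num) (by norm_num) (by norm_num) (by norm_num) hr (by linarith) (by linarith) h0 (seg 31 0 31 0 34 23 0 (by norm_num) (by norm_num) (by norm_num) (by norm_num) H1 H2) H4 H0 hμ
    rcases le_total (16 * s - (-1) * c) 0 with g5 | g5
    · exact sector 13 (-12) 16 (-1) 34 23 0 25 0 2 (by norm_num) (by norm_num) (by norm_num) (by norm_num) (by norm_num) (by norm_num) hr (by linarith) (by linarith) h0 (seg 34 23 34 23 16 25 0 (by norm_num) (by norm_num) (by norm_num) (by norm_num) H2 H3) H4 H0 hμ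
    exact sector 16 (-1) 1 0 34 23 0 25 31 0 (by norm_num) (by norm_num) (by norm_num) (by norm_num) (by norm_num) (by norm_num) hr (by linarith) (by linarith) h0 (seg 34 23 34 23 16 25 0 (by norm_num) (by norm_num) (by norm_num) (by norm_num) H2 H3) H4 H1 hμ

/-- The five vertices of the pentagon (before scaling). -/
def vert : Fin 5 → EuclideanSpace ℝ (Fin 2) :=
  ![!₂[0, 2], !₂[31, 0], !₂[34, 23], !₂[16, 25], !₂[0, 25]]

/-- The pentagon before scaling. -/
def pent : Set (EuclideanSpace ℝ (Fin 2)) := convexHull ℝ (Set.range vert)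

lemma mem_tri_of {A B C x : EuclideanSpace ℝ (Fin 2)} (hD : 0 < cr A B C)
    (h1 : 0 ≤ cr A x C) (h2 : 0 ≤ cr A B x) (h3 : cr A x C + cr A B x ≤ cr A B C) :
    x ∈ convexHull ℝ {A, B, C} := by
  rw [mem_hull3]
  refine ⟨cr A x C / cr A B C, cr A B x / cr A B C, by positivity, by positivity, ?_, ?_⟩
  · rw [← add_div, div_le_one hD]; exact h3
  · ext i
    fin_cases i
    · simp
      field_simp
      simp only [cr]
      ring
    · simp
      field_simp
      simp only [cr]
      ring

lemma pent_halfplanes {x : EuclideanSpace ℝ (Fin 2)} (hx : x ∈ pent) :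
    0 ≤ cr (vert 0) (vert 1) x ∧ 0 ≤ cr (vert 1) (vert 2) x ∧ 0 ≤ cr (vert 2) (vert 3) x ∧
    0 ≤ cr (vert 3) (vert 4) x ∧ 0 ≤ cr (vert 4) (vert 0) x := by
  let S : Set (EuclideanSpace ℝ (Fin 2)) :=
    {x | 0 ≤ cr (vert 0) (vert 1) x ∧ 0 ≤ cr (vert 1) (vert 2) x ∧ 0 ≤ cr (vert 2) (vert 3) x ∧
    0 ≤ cr (vert 3) (vert 4) x ∧ 0 ≤ cr (vert 4) (vert 0) x}
  have hconv : Convex ℝ S := by
    intro x hx y hy a b ha hb hab
    simp only [S, cr, vert, mem_ofPred_eq] at hx hy ⊢
    obtain ⟨h1, h2, h3, h4, h5⟩ := hx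
    obtain ⟨g1, g2, g3, g4, g5⟩ := hy
    simp at h1 h2 h3 h4 h5 g1 g2 g3 g4 g5 ⊢
    have hb' : b = 1 - a := by linarith
    subst hb'
    refine ⟨?_, ?_, ?_, ?_, ?_⟩ <;> nlinarith
  have hsub : pent ⊆ S := by
    apply convexHull_min _ hconv
    rintro _ ⟨i, rfl⟩
    fin_cases i <;> simp [S, cr, vert] <;> norm_num
  exact hsub hx

lemma pent_subset : pent ⊆ convexHull ℝ {vert 0, vert 1, vert 2} ∪
    (convexHull ℝ {vert 0, vert 2, vert 3} ∪ convexHull ℝ {vert 0, vert 3, vert 4}) := by
  intro x hx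
  obtain ⟨h1, h2, h3, h4, h5⟩ := pent_halfplanes hx
  rcases le_total 0 (cr (vert 0) x (vert 2)) with g | g
  · left
    apply mem_tri_of
    · simp [cr, vert]; norm_num
    · exact g
    · exact h1
    · simp [cr, vert] at h1 h2 h3 h4 h5 g ⊢
      linarith
  · right
    rcases le_total 0 (cr (vert 0) x (vert 3)) with g' | g'
    · left
      apply mem_tri_of
      · simp [cr, vert]; norm_num
      · exact g'
      · simp [cr, vert] at g ⊢
        linarith
      · simp [cr, vert] at h1 h2 h3 h4 h5 g g' ⊢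
        linarith
    · right
      apply mem_tri_of
      · simp [cr, vert]; norm_num
      · simp [cr, vert] at h1 h2 h3 h4 h5 g g' ⊢
        linarith
      · simp [cr, vert] at h1 h2 h3 h4 h5 g g' ⊢
        linarith
      · simp [cr, vert] at h1 h2 h3 h4 h5 g g' ⊢
        linarith

lemma volume_pent_le : volume pent ≤ ENNReal.ofReal (1533 / 2) := by
  calc volume pent ≤ volume (convexHull ℝ {vert 0, vert 1, vert 2} ∪
    (convexHull ℝ {vert 0, vert 2, vert 3} ∪ convexHull ℝ {vert 0, vert 3, vert 4})) :=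
        measure_mono pent_subset
    _ ≤ volume (convexHull ℝ {vert 0, vert 1, vert 2}) +
      (volume (convexHull ℝ {vert 0, vert 2, vert 3}) + volume (convexHull ℝ {vert 0, vert 3, vert 4})) :=
        (measure_union_le _ _).trans (add_le_add le_rfl (measure_union_le _ _))
    _ = ENNReal.ofReal (1533 / 2) := by
        rw [volume_tri, volume_tri, volume_tri, ← ENNReal.ofReal_add (by positivity) (by positivity),
          ← ENNReal.ofReal_add (by positivity) (by positivity)]
        congr 1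
        have e1 : cr (vert 0) (vert 1) (vert 2) = 719 := by simp [cr, vert]; norm_num
        have e2 : cr (vert 0) (vert 2) (vert 3) = 446 := by simp [cr, vert]; norm_num
        have e3 : cr (vert 0) (vert 3) (vert 4) = 368 := by simp [cr, vert]; norm_num
        rw [e1, e2, e3]
        norm_num [abs_of_pos]

lemma volume_pent_pos : 0 < volume pent := by
  have h : convexHull ℝ {vert 0, vert 1, vert 2} ⊆ pent := by
    apply convexHull_mono
    intro x hx
    simp only [mem_insert_iff, mem_singleton_iff] at hx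
    rcases hx with rfl | rfl | rfl
    · exact ⟨0, rfl⟩
    · exact ⟨1, rfl⟩
    · exact ⟨2, rfl⟩
  refine lt_of_lt_of_le ?_ (measure_mono h)
  rw [volume_tri]
  have e1 : cr (vert 0) (vert 1) (vert 2) = 719 := by simp [cr, vert]; norm_num
  rw [e1]
  norm_num

/-- If the scaled pentagon is contained in a right triangle with (positively oriented) legs, then the
triangle is large. -/
lemma main_bound {r μ : ℝ} (hr : 0 < r) (hμ : 0 ≤ μ) (A B C : EuclideanSpace ℝ (Fin 2))
    (h0 : C 0 - A 0 = -(μ * (B 1 - A 1))) (h1 : C 1 - A 1 = μ * (B 0 - A 0)) (hBA : B ≠ A)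
    (hsub : r • pent ⊆ convexHull ℝ {A, B, C}) :
    4 * (154833 / 200) * r ^ 2 < |cr A B C| := by
  have hn : 0 < (B 0 - A 0) ^ 2 + (B 1 - A 1) ^ 2 := by
    by_contra hneg
    apply hBA
    have e0 : B 0 - A 0 = 0 := by nlinarith [sq_nonneg (B 0 - A 0), sq_nonneg (B 1 - A 1)]
    have e1 : B 1 - A 1 = 0 := by nlinarith [sq_nonneg (B 0 - A 0), sq_nonneg (B 1 - A 1)]
    ext i
    fin_cases i
    · simp; linarith
    · simp; linarith
  have hin : ∀ i : Fin 5, InT r (A 0) (A 1) (B 0 - A 0) (B 1 - A 1) μ (vert i 0) (vert i 1) := by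
    intro i
    have hmem : r • vert i ∈ convexHull ℝ {A, B, C} :=
      hsub (smul_mem_smul_set (subset_convexHull ℝ _ ⟨i, rfl⟩))
    rw [mem_hull3] at hmem
    obtain ⟨a, b, ha, hb, hab, e⟩ := hmem
    refine ⟨a, b, ha, hb, hab, ?_, ?_⟩
    · have := congrArg (fun z : EuclideanSpace ℝ (Fin 2) => z 0) e
      simp only [PiLp.smul_apply, PiLp.add_apply, PiLp.sub_apply, smul_eq_mul] at this
      rw [h0] at this
      linarith
    · have := congrArg (fun z : EuclideanSpace ℝ (Fin 2) => z 1) e
      simp only [PiLp.smul_apply, PiLp.add_apply, PiLp.sub_apply, smul_eq_mul] at this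
      rw [h1] at this
      linarith
  have key := sectors hr hn hμ (by simpa [vert] using hin 0) (by simpa [vert] using hin 1)
    (by simpa [vert] using hin 2) (by simpa [vert] using hin 3) (by simpa [vert] using hin 4)
  have : cr A B C = μ * ((B 0 - A 0) ^ 2 + (B 1 - A 1) ^ 2) := by
    rw [cr, h0, h1]; ring
  rw [this, abs_of_nonneg (by positivity)]
  exact key

lemma main_bound' {r : ℝ} (hr : 0 < r) (A B C : EuclideanSpace ℝ (Fin 2))
    (hang : inner ℝ (B - A) (C - A) = 0)
    (hsub : r • pent ⊆ convexHull ℝ {A, B, C}) :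
    4 * (154833 / 200) * r ^ 2 < |cr A B C| := by
  have hin : (B 0 - A 0) * (C 0 - A 0) + (B 1 - A 1) * (C 1 - A 1) = 0 := by
    have := hang
    simp only [PiLp.inner_apply, Fin.sum_univ_two, PiLp.sub_apply] at this
    simp at this
    linarith
  -- nondegeneracy
  have hpos : 0 < volume (convexHull ℝ {A, B, C}) := by
    refine lt_of_lt_of_le ?_ (measure_mono hsub)
    rw [Measure.addHaar_smul]
    apply ENNReal.mul_pos
    · simp [hr.ne']
    · exact volume_pent_pos.ne'
  rw [volume_tri] at hpos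
  have hcr : cr A B C ≠ 0 := by
    intro h
    rw [h] at hpos
    simp at hpos
  have hBA : B ≠ A := by
    rintro rfl
    apply hcr; simp [cr]
  have hCA : C ≠ A := by
    rintro rfl
    apply hcr; simp [cr]
  have hn : 0 < (B 0 - A 0) ^ 2 + (B 1 - A 1) ^ 2 := by
    by_contra hneg
    apply hcr
    have e0 : B 0 - A 0 = 0 := by nlinarith [sq_nonneg (B 0 - A 0), sq_nonneg (B 1 - A 1)]
    have e1 : B 1 - A 1 = 0 := by nlinarith [sq_nonneg (B 0 - A 0), sq_nonneg (B 1 - A 1)]
    rw [cr, e0, e1]; ring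
  have hn' : 0 < (C 0 - A 0) ^ 2 + (C 1 - A 1) ^ 2 := by
    by_contra hneg
    apply hcr
    have e0 : C 0 - A 0 = 0 := by nlinarith [sq_nonneg (C 0 - A 0), sq_nonneg (C 1 - A 1)]
    have e1 : C 1 - A 1 = 0 := by nlinarith [sq_nonneg (C 0 - A 0), sq_nonneg (C 1 - A 1)]
    rw [cr, e0, e1]; ring
  rcases lt_or_gt_of_ne hcr with hneg | hposi
  · -- swap the legs
    have hsub' : r • pent ⊆ convexHull ℝ {A, C, B} := by
      have : ({A, C, B} : Set (EuclideanSpace ℝ (Fin 2))) = {A, B, C} := by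
        rw [Set.pair_comm]
      rw [this]; exact hsub
    have hcr' : cr A C B = - cr A B C := by simp only [cr]; ring
    have := main_bound (μ := cr A C B / ((C 0 - A 0) ^ 2 + (C 1 - A 1) ^ 2)) hr
      (div_nonneg (by rw [hcr']; linarith) hn'.le) A C B ?_ ?_ hCA hsub'
    · rw [hcr', abs_neg] at this
      exact this
    · field_simp
      simp only [cr]
      linear_combination (C 0 - A 0) * hin
    · field_simp
      simp only [cr]
      linear_combination (C 1 - A 1) * hin
  · refine main_bound (μ := cr A B C / ((B 0 - A 0) ^ 2 + (B 1 - A 1) ^ 2)) hr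
      (div_nonneg hposi.le hn.le) A B C ?_ ?_ hBA hsub
    · field_simp
      simp only [cr]
      linear_combination (B 0 - A 0) * hin
    · field_simp
      simp only [cr]
      linear_combination (B 1 - A 1) * hin

theorem result :
    ∃ K : Set (EuclideanSpace ℝ (Fin 2)),
      Convex ℝ K ∧ IsCompact K ∧ (interior K).Nonempty ∧ volume K = 1 ∧
      ∀ A B C : EuclideanSpace ℝ (Fin 2),
        EuclideanGeometry.angle B A C = Real.pi / 2 →
        K ⊆ convexHull ℝ {A, B, C} →
        ENNReal.ofReal 2.02 < volume (convexHull ℝ {A, B, C}) := by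
  have hfin : volume pent ≠ ⊤ := ne_top_of_le_ne_top ENNReal.ofReal_ne_top volume_pent_le
  set V : ℝ := (volume pent).toReal with hV
  have hVpos : 0 < V := ENNReal.toReal_pos volume_pent_pos.ne' hfin
  have hVle : V ≤ 1533 / 2 := by
    rw [hV]
    exact ENNReal.toReal_le_of_le_ofReal (by norm_num) volume_pent_le
  set r : ℝ := (Real.sqrt V)⁻¹ with hr
  have hrpos : 0 < r := by positivity
  have hr2 : r ^ 2 = 1 / V := by
    rw [hr, inv_pow, Real.sq_sqrt hVpos.le]; simp
  have hKvol : volume (r • pent) = 1 := by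
    rw [Measure.addHaar_smul]
    simp only [finrank_euclideanSpace, Fintype.card_fin]
    rw [hr2, abs_of_pos (by positivity)]
    have : volume pent = ENNReal.ofReal V := by rw [hV, ENNReal.ofReal_toReal hfin]
    rw [this, ← ENNReal.ofReal_mul (by positivity)]
    rw [one_div, inv_mul_cancel₀ hVpos.ne']
    simp
  have hconv : Convex ℝ (r • pent) := (convex_convexHull ℝ _).smul r
  have hcomp : IsCompact (r • pent) :=
    ((Set.finite_range vert).isCompact_convexHull ℝ).smul r
  refine ⟨r • pent, hconv, hcomp, ?_, hKvol, ?_⟩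
  · by_contra hne
    rw [not_nonempty_iff_eq_empty] at hne
    have h1 := hconv.addHaar_frontier volume
    have h2 : r • pent ⊆ frontier (r • pent) := by
      rw [frontier, hne, diff_empty]
      exact subset_closure
    have h3 := measure_mono_null h2 h1
    rw [hKvol] at h3
    exact one_ne_zero h3
  · intro A B C hang hsub
    have hin : inner ℝ (B - A) (C - A) = 0 := by
      rw [InnerProductGeometry.inner_eq_zero_iff_angle_eq_pi_div_two]
      exact hang
    have key := main_bound' hrpos A B C hin hsub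
    rw [volume_tri]
    rw [ENNReal.ofReal_lt_ofReal_iff']
    have hcrpos : 0 < |cr A B C| := lt_of_le_of_lt (by positivity) key
    refine ⟨?_, by positivity⟩
    have h5 : (2.02 : ℝ) ≤ 2 * (154833 / 200) * r ^ 2 := by
      rw [hr2, mul_one_div, le_div_iff₀ hVpos]
      nlinarith
    linarith

end Pool.Agent.Results.MP_49a3fa_co.RightTriangle
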